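import Pool.Agent.H716Z.SL.Final

set_option autoImplicit false

namespace Pool.Agent.Results.MP_35e7b7_an.AShareAll

open Pool.Agent.H716Z.SL

/-- A transcendental meromorphic function on the plane which has two distinct finite shared limit
values with its derivative shares all limit values with its derivative. -/
theorem result (f : ℂ → ℂ) (hf : Meromorphic f) (htr : ¬ IsRationalFun f) (a b : ℂ) (hab : a ≠ b)
    (ha : SharedLimit f (deriv f) (a : OnePoint ℂ)) (hb : SharedLimit f (deriv f) (b : OnePoint ℂ))
    (c : OnePoint ℂ) : SharedLimit f (deriv f) c :=
  final hf htr hab ha hb c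

end Pool.Agent.Results.MP_35e7b7_an.AShareAll
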